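import Pool.Agent.Helper18.NF.Stmts2

set_option autoImplicit false

namespace Pool.Agent.Helper18.NF

open Pool.Agent.Helper14.BSC Polynomial

theorem st_DVP (h1 : ST_DLR) : ST_DVP := by
  intro k Ω _ _ _ _ _ _ a b hΔ n hn x y h hx
  obtain ⟨A, B, hcop, hdeg, -, hM⟩ := h1 k a b hΔ n hn
  have hnd : (A.map (algebraMap k Ω) - C x * B.map (algebraMap k Ω)).natDegree = A.natDegree := by
    have h3 : (C x * B.map (algebraMap k Ω)).natDegree < (A.map (algebraMap k Ω)).natDegree := by
      refine lt_of_le_of_lt (Polynomial.natDegree_C_mul_le _ _) ?_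
      rw [Polynomial.natDegree_map, Polynomial.natDegree_map]
      omega
    rw [Polynomial.natDegree_sub_eq_left_of_natDegree_lt h3, Polynomial.natDegree_map]
  have hd : (A.map (algebraMap k Ω) - C x * B.map (algebraMap k Ω)).degree ≠ 0 := by
    intro h0
    have := Polynomial.natDegree_eq_of_degree_eq_some (n := 0) h0
    omega
  obtain ⟨x', hx'⟩ := IsAlgClosed.exists_root _ hd
  have hroot : aeval x' A = x * aeval x' B := by
    have h4 : (A.map (algebraMap k Ω) - C x * B.map (algebraMap k Ω)).eval x' = 0 := hx'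
    rw [Polynomial.eval_sub, Polynomial.eval_mul, Polynomial.eval_C, Polynomial.eval_map_algebraMap,
      Polynomial.eval_map_algebraMap] at h4
    exact sub_eq_zero.1 h4
  have htr : Transcendental k x' := by
    intro halg
    apply hx
    have hmem : x' ∈ algebraicClosure k Ω := mem_algebraicClosure_iff.2 halg
    have hA : aeval x' A ∈ algebraicClosure k Ω := by
      have := Polynomial.aeval_algHom_apply (algebraicClosure k Ω).val (⟨x', hmem⟩ :
        algebraicClosure k Ω) A
      change aeval x' A = _ at this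
      rw [this]
      exact (aeval (⟨x', hmem⟩ : algebraicClosure k Ω) A).2
    have hB : aeval x' B ∈ algebraicClosure k Ω := by
      have := Polynomial.aeval_algHom_apply (algebraicClosure k Ω).val (⟨x', hmem⟩ :
        algebraicClosure k Ω) B
      change aeval x' B = _ at this
      rw [this]
      exact (aeval (⟨x', hmem⟩ : algebraicClosure k Ω) B).2
    have hB0 : aeval x' B ≠ 0 := by
      intro h0
      obtain ⟨U, V, hUV⟩ := hcop
      have h5 := congrArg (aeval x') hUV
      rw [map_add, map_mul, map_mul, hroot, h0, map_one] at h5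
      simp at h5
    have hxe : x = aeval x' A / aeval x' B := by
      rw [hroot, mul_div_assoc, div_self hB0, mul_one]
    have hx2 : x ∈ algebraicClosure k Ω := by
      rw [hxe]
      exact div_mem hA hB
    exact mem_algebraicClosure_iff.1 hx2
  obtain ⟨y', hy'⟩ := IsAlgClosed.exists_pow_nat_eq
    (x' ^ 3 + algebraMap k Ω a * x' + algebraMap k Ω b) (n := 2) (by norm_num)
  have hE : Eq3 a b x' y' := hy'
  obtain ⟨x'', y'', h'', e1, e2⟩ := hM hΔ Ω x' y' hE htr
  have hB1 : aeval x' B ≠ 0 := by
    intro h0
    apply htr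
    refine ⟨B, ?_, h0⟩
    rintro rfl
    simp only [Polynomial.natDegree_zero, zero_add] at hdeg
    obtain ⟨U, V, hUV⟩ := hcop
    rw [mul_zero, add_zero] at hUV
    have h6 : IsUnit A := IsUnit.of_mul_eq_one U (by rw [mul_comm]; exact hUV)
    have h7 := Polynomial.natDegree_eq_zero_of_isUnit h6
    omega
  have hx3 : x'' = x := by
    rw [hroot] at e2
    exact mul_right_cancel₀ hB1 e2
  subst hx3
  rcases EP.x_eq hΔ h'' h with h8 | h8
  · exact ⟨x', y', hE, by rw [e1, h8]⟩
  · refine ⟨x', -y', hE.neg, ?_⟩
    rw [← EP.neg_pt hΔ hE, smul_neg, e1, h8, neg_neg]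

end Pool.Agent.Helper18.NF
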