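import Pool.Agent.Helper18.NF.Stmts2

set_option autoImplicit false

namespace Pool.Agent.Helper18.NF

open Pool.Agent.Helper14.BSC Polynomial

theorem orb_tr {k Ω : Type} [Field k] [Field Ω] [Algebra k Ω] [CharZero k] [IsAlgClosed Ω]
    (hD : ST_DLB) (D : Sec k Ω) {f : LL D} (hf : NC D f) : Transcendental k f := by
  rw [transcendental_iff]
  intro G hG
  by_contra hne
  exact (hD k Ω D).1 f hf G hne hG

theorem orb_nc {k Ω : Type} [Field k] [Field Ω] [Algebra k Ω] (D : Sec k Ω) {f : LL D}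
    (hf : Transcendental k f) : NC D f := by
  intro c hc
  apply hf
  rw [hc]
  exact isAlgebraic_algebraMap c

theorem st_ORB (h1 : ST_DLB) (h2 : ST_DLR) (h3 : ST_NLN) (h4 : ST_TRN) : ST_ORB := by
  intro k Ω _ _ _ _ _ D _ a b hΔ p hp x y h hx e he hdiv
  obtain ⟨A, B, hcop, hdeg, hlc, hM⟩ := h2 k a b hΔ p (by omega)
  have hpos := h3 k a b hΔ p hp A B hcop hdeg hlc hM
  have hdyn : Dyn A B := ⟨hcop, hdeg, hpos⟩
  obtain ⟨f, y1, hf, e1, e2⟩ := h4 k (LL D) a b hΔ e he x y h (orb_tr h1 D hx)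
  refine ⟨A, B, hdyn, f, orb_nc D e2, ?_⟩
  intro N
  obtain ⟨P, hP⟩ := hdiv N
  rw [e1] at hP
  rcases EP.cases hΔ P with h0 | ⟨g, w, hg, hPg⟩
  · rw [h0, smul_zero] at hP
    exact absurd hP.symm (EP.pt_ne_zero hΔ hf)
  · have hgNC : NC D g := by
      intro c hc
      have hw : ∃ c' : k, w = algebraMap k (LL D) c' := by
        by_contra hcon
        push Not at hcon
        have h5 := (h1 k Ω D).1 w hcon (X ^ 2 - C (c ^ 3 + a * c + b))
          (Polynomial.X_pow_sub_C_ne_zero (by norm_num) _)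
        apply h5
        unfold Eq3 at hg
        rw [map_sub, map_pow, aeval_X, aeval_C, hg, hc]
        simp only [map_add, map_mul, map_pow]
        ring
      obtain ⟨c', hc'⟩ := hw
      have hE : Eq3 a b (F := k) c c' := by
        unfold Eq3 at hg ⊢
        rw [hc, hc'] at hg
        apply (algebraMap k (LL D)).injective
        simpa using hg
      have hPe : P = EP.map (Algebra.ofId k (LL D)) (EP.pt hΔ c c' hE) := by
        rw [hPg, EP.map_pt hΔ]
        exact EP.pt_congr hΔ hc hc'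
      rw [hPe, ← map_nsmul] at hP
      rcases EP.cases hΔ (p ^ N • EP.pt hΔ c c' hE) with h6 | ⟨u, v, huv, h6⟩
      · rw [h6, map_zero] at hP
        exact absurd hP.symm (EP.pt_ne_zero hΔ hf)
      · rw [h6, EP.map_pt hΔ] at hP
        have h7 := (EP.pt_inj hΔ hP).1
        exact orb_nc D e2 u h7.symm
    have hB0 : B ≠ 0 := by
      rintro rfl
      simp at hpos
    have key : ∀ i : ℕ, ∃ (g' w' : LL D) (hg' : Eq3 a b g' w'),
        p ^ i • P = EP.pt hΔ g' w' hg' ∧ g' = (dl A B)^[i] g ∧ Transcendental k g' := by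
      intro i
      induction i with
      | zero =>
        exact ⟨g, w, hg, by rw [pow_zero, one_smul, hPg], rfl, orb_tr h1 D hgNC⟩
      | succ i ih =>
        obtain ⟨g', w', hg', i1, i2, i3⟩ := ih
        obtain ⟨u, v, huv, j1, j2⟩ := hM hΔ (LL D) g' w' hg' i3
        obtain ⟨u', v', huv', l1, l2⟩ := h4 k (LL D) a b hΔ p (by omega) g' w' hg' i3
        refine ⟨u, v, huv, ?_, ?_, ?_⟩
        · rw [pow_succ', mul_smul, i1, j1]
        · rw [Function.iterate_succ_apply', ← i2]
          have hB1 : aeval g' B ≠ 0 := fun h0 => i3 ⟨B, hB0, h0⟩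
          rw [dl, ← j2, mul_div_assoc, div_self hB1, mul_one]
        · rw [j1] at l1
          rw [(EP.pt_inj hΔ l1).1]
          exact l2
    obtain ⟨g', w', hg', i1, i2, -⟩ := key N
    rw [i1] at hP
    exact ⟨g, by rw [← i2, (EP.pt_inj hΔ hP).1]⟩

end Pool.Agent.Helper18.NF
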