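import Pool.Agent.Helper18.NF.Stmts2

set_option autoImplicit false

namespace Pool.Agent.Helper18.NF

open Pool.Agent.Helper14.BSC Polynomial

theorem trn_natDegree {K : Type} [Field K] (A B : K[X]) (h : B.natDegree < A.natDegree) (c : K) :
    (A - C c * B).natDegree = A.natDegree := by
  apply Polynomial.natDegree_sub_eq_left_of_natDegree_lt
  exact lt_of_le_of_lt (Polynomial.natDegree_C_mul_le c B) h

theorem trn_alg {k F : Type} [Field k] [Field F] [Algebra k F] (A B : k[X])
    (hdeg : B.natDegree < A.natDegree) (x x' : F) (h : x' * aeval x B = aeval x A)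
    (halg : IsAlgebraic k x') : IsAlgebraic k x := by
  have hmem : x' ∈ algebraicClosure k F := mem_algebraicClosure_iff.2 halg
  let c : algebraicClosure k F := ⟨x', hmem⟩
  let q : (algebraicClosure k F)[X] := A.map (algebraMap k _) - C c * B.map (algebraMap k _)
  have hd : (B.map (algebraMap k (algebraicClosure k F))).natDegree
      < (A.map (algebraMap k (algebraicClosure k F))).natDegree := by
    rw [Polynomial.natDegree_map, Polynomial.natDegree_map]
    exact hdeg
  have hq : q ≠ 0 := by
    intro h0
    have h1 : q.natDegree = A.natDegree := by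
      show (A.map (algebraMap k (algebraicClosure k F)) - C c * B.map (algebraMap k _)).natDegree = _
      rw [trn_natDegree _ _ hd, Polynomial.natDegree_map]
    rw [h0, Polynomial.natDegree_zero] at h1
    omega
  have hroot : aeval x q = 0 := by
    show aeval x (A.map (algebraMap k (algebraicClosure k F)) - C c * B.map (algebraMap k _)) = 0
    rw [map_sub, map_mul, aeval_C, Polynomial.aeval_map_algebraMap, Polynomial.aeval_map_algebraMap]
    have : algebraMap (algebraicClosure k F) F c = x' := rfl
    rw [this, h, sub_self]
  have h2 : IsAlgebraic (algebraicClosure k F) x := ⟨q, hq, hroot⟩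
  exact h2.restrictScalars k

theorem st_TRN (h1 : ST_DLR) : ST_TRN := by
  intro k F _ _ _ _ _ a b hΔ n hn x y h hx
  obtain ⟨A, B, -, hdeg, -, hM⟩ := h1 k a b hΔ n hn
  obtain ⟨x', y', h', e1, e2⟩ := hM hΔ F x y h hx
  refine ⟨x', y', h', e1, fun halg => hx ?_⟩
  exact trn_alg A B (by omega) x x' e2 halg

end Pool.Agent.Helper18.NF
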