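import Pool.Agent.Helper18.NF.Stmts2

set_option autoImplicit false

namespace Pool.Agent.Helper18.NF

open Pool.Agent.Helper14.BSC Polynomial

theorem st_ADX : ST_ADX := by
  intro k F _ _ _ _ a b hΔ x₁ y₁ x₂ y₂ h₁ h₂ hx
  obtain ⟨x, y, h, e1, e2, -⟩ := EP.add_of_x_ne hΔ h₁ h₂ hx
  obtain ⟨x', y', h', f1, f2, -⟩ := EP.add_of_x_ne hΔ h₁ h₂.neg hx
  refine ⟨x, y, x', y', h, h', e1, ?_, ?_⟩
  · rw [sub_eq_add_neg, EP.neg_pt hΔ h₂, f1]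
  · have hne : x₁ - x₂ ≠ 0 := sub_ne_zero.2 hx
    have e3 : x * (x₁ - x₂) ^ 2 = (y₁ - y₂) ^ 2 - (x₁ + x₂) * (x₁ - x₂) ^ 2 := by
      rw [e2]
      field_simp
      ring
    have f3 : x' * (x₁ - x₂) ^ 2 = (y₁ + y₂) ^ 2 - (x₁ + x₂) * (x₁ - x₂) ^ 2 := by
      rw [f2]
      field_simp
      ring
    unfold Eq3 at h₁ h₂
    linear_combination e3 + f3 + 2 * h₁ + 2 * h₂

end Pool.Agent.Helper18.NF
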